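import Pool.Agent.Helper44_Art.Fin2

set_option autoImplicit false

/-!
# An amalgam theorem for residually finite Artin groups

A label `0` of the Coxeter matrix stands for infinity.
-/

namespace Pool.Agent.Results.MP_61f49c_al.AmalgamTheorem

/-- The Artin group of a Coxeter matrix (`0` stands for infinity). -/
abbrev Artin {S : Type} (M : CoxeterMatrix S) : Type :=
  PresentedGroup
    {r : FreeGroup S | ∃ i j : S, M.M i j ≠ 0 ∧
      r = ((List.range (M.M i j)).map
              (fun k => if Even k then FreeGroup.of i else FreeGroup.of j)).prod *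
          (((List.range (M.M i j)).map
              (fun k => if Even k then FreeGroup.of j else FreeGroup.of i)).prod)⁻¹}

/-- The Coxeter matrix on the subset `T` of the generators. -/
def sub {S : Type} (M : CoxeterMatrix S) (T : Set S) : CoxeterMatrix T where
  M := fun x y => M.M x.1 y.1
  isSymm := by
    ext x y
    exact M.symmetric y.1 x.1
  diagonal x := M.diagonal x.1
  off_diagonal x y h := M.off_diagonal x.1 y.1 (fun h' => h (Subtype.ext h'))

/-- Residual finiteness. -/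
def ResFinite (G : Type) [Group G] : Prop :=
  ∀ g : G, g ≠ 1 → ∃ K : Subgroup G, K.Normal ∧ K.FiniteIndex ∧ g ∉ K

/-- `x` and `y` are joined: they are distinct and have a finite label. -/
def Joined {S : Type} (M : CoxeterMatrix S) (x y : S) : Prop := x ≠ y ∧ M.M x y ≠ 0

/-- The label `m` is good: for some prime `q` dividing `m`, every finite label `m'` is a multiple
of `m` or satisfies `q ∣ m / gcd m' m`.  (Every prime power is good.) -/
def Good {S : Type} (M : CoxeterMatrix S) (m : ℕ) : Prop :=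
  ∃ q : ℕ, q.Prime ∧ q ∣ m ∧ ∀ s t : S, Joined M s t →
    m ∣ M.M s t ∨ q ∣ m / Nat.gcd (M.M s t) m

theorem rf_of {G : Type} [Group G] (h : ResFinite G) : Art.RF G := by
  rw [Art.RF, Group.residuallyFinite_iff_exists_finiteIndex]
  intro g hg
  obtain ⟨K, -, hK, hgK⟩ := h g hg
  exact ⟨K, hK, hgK⟩

theorem of_rf {G : Type} [Group G] (h : Art.RF G) : ResFinite G := by
  intro g hg
  obtain ⟨H, hH, hgH⟩ := Group.residuallyFinite_iff_exists_finiteIndex.mp h g hg
  exact ⟨H.normalCore, inferInstance, inferInstance, fun hcon => hgH (H.normalCore_le hcon)⟩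

/-- Let `S = S₁ ∪ S₂`, with no finite label between `S₁ \ S₂` and `S₂ \ S₁`, such that in every
triangle of `S₁ ∩ S₂` at most one label differs from `2` and all labels inside `S₁ ∩ S₂` are good.
If the Artin groups of `S₁` and `S₂` are residually finite, then so is that of `S`. -/
theorem result {S : Type} [Fintype S] (M : CoxeterMatrix S) (S₁ S₂ : Set S)
    (hun : S₁ ∪ S₂ = Set.univ)
    (hsep : ∀ x ∈ S₁, x ∉ S₂ → ∀ y ∈ S₂, y ∉ S₁ → M.M x y = 0)
    (htri : ∀ x ∈ S₁ ∩ S₂, ∀ y ∈ S₁ ∩ S₂, ∀ z ∈ S₁ ∩ S₂, Joined M x y → Joined M x z →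
      Joined M y z → M.M x y = 2 ∨ (M.M x z = 2 ∧ M.M y z = 2))
    (hlab : ∀ x ∈ S₁ ∩ S₂, ∀ y ∈ S₁ ∩ S₂, Joined M x y → Good M (M.M x y))
    (h₁ : ResFinite (Artin (sub M S₁))) (h₂ : ResFinite (Artin (sub M S₂))) :
    ResFinite (Artin M) := by
  refine of_rf (Art.H44.am2P M S₁ S₂ hun hsep ?_ ?_ (rf_of h₁) (rf_of h₂))
  · intro x hx y hy z hz hxy hxz hyz g1 g2 g3
    exact htri x hx y hy z hz ⟨hxy, g1⟩ ⟨hxz, g2⟩ ⟨hyz, g3⟩
  · intro x hx y hy hxy g
    obtain ⟨q, hq, hqm, hqq⟩ := hlab x hx y hy ⟨hxy, g⟩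
    exact ⟨q, hq, hqm, fun s t hst hM => hqq s t ⟨hst, hM⟩⟩

end Pool.Agent.Results.MP_61f49c_al.AmalgamTheorem
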