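import Pool.Agent.Helper12_UNF.All

set_option autoImplicit false

/-!
# Residual finiteness of Artin groups with cliques of types A, B, I2, or coloured cliques

A label `0` of the Coxeter matrix stands for infinity.
-/

namespace Pool.Agent.Results.MP_61f49c_al.CliqueTypes

/-- The Artin group of a Coxeter matrix (`0` stands for infinity). -/
abbrev Artin {S : Type} (M : CoxeterMatrix S) : Type :=
  PresentedGroup
    {r : FreeGroup S | ∃ i j : S, M.M i j ≠ 0 ∧
      r = ((List.range (M.M i j)).map
              (fun k => if Even k then FreeGroup.of i else FreeGroup.of j)).prod *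
          (((List.range (M.M i j)).map
              (fun k => if Even k then FreeGroup.of j else FreeGroup.of i)).prod)⁻¹}

/-- The generator `s` of the Artin group. -/
def gen {S : Type} (M : CoxeterMatrix S) (s : S) : Artin M := PresentedGroup.of s

/-- A clique: the labels in `C` are finite. -/
def IsClique {S : Type} (M : CoxeterMatrix S) (C : Set S) : Prop :=
  ∀ s ∈ C, ∀ t ∈ C, M.M s t ≠ 0

/-- The labels in `C` are those of the matrix `N`, up to a renumbering of the generators. -/
def HasType {S T : Type} (M : CoxeterMatrix S) (C : Set S) (N : CoxeterMatrix T) : Prop :=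
  ∃ e : C ≃ T, ∀ s t : C, M.M s t = N.M (e s) (e t)

/-- The Coxeter matrix of type `D_(n+1)`: the path `0, 1, ..., n-1` of type `A_n` and one more
vertex `none`, joined to the vertex `1`. -/
def matD (n : ℕ) : CoxeterMatrix (Option (Fin n)) where
  M := Matrix.of fun x y => match x, y with
    | none, none => 1
    | none, some j => if j.1 = 1 then 3 else 2
    | some i, none => if i.1 = 1 then 3 else 2
    | some i, some j => (CoxeterMatrix.A n).M i j
  isSymm := by
    ext x y
    rcases x with _ | x <;> rcases y with _ | y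
    · rfl
    · rfl
    · rfl
    · exact (CoxeterMatrix.A n).symmetric y x
  diagonal x := by
    rcases x with _ | x
    · rfl
    · exact (CoxeterMatrix.A n).diagonal x
  off_diagonal x y h := by
    rcases x with _ | x <;> rcases y with _ | y
    · exact absurd rfl h
    · show (if y.1 = 1 then 3 else 2) ≠ 1
      split_ifs <;> norm_num
    · show (if x.1 = 1 then 3 else 2) ≠ 1
      split_ifs <;> norm_num
    · exact (CoxeterMatrix.A n).off_diagonal x y (fun h' => h (by rw [h']))

/-- The Coxeter matrix of affine type `A_(n-1)`: a cycle of `n` generators with labels `3`. -/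
def cycle (n : ℕ) : CoxeterMatrix (ZMod n) where
  M := Matrix.of fun i j => if i = j then 1 else if j = i + 1 ∨ i = j + 1 then 3 else 2
  isSymm := by
    ext i j
    show (if j = i then 1 else if i = j + 1 ∨ j = i + 1 then 3 else 2) =
      (if i = j then 1 else if j = i + 1 ∨ i = j + 1 then 3 else 2)
    by_cases h : i = j
    · rw [if_pos h, if_pos h.symm]
    · rw [if_neg h, if_neg (Ne.symm h)]
      by_cases h2 : j = i + 1 ∨ i = j + 1
      · rw [if_pos h2, if_pos h2.symm]
      · rw [if_neg h2, if_neg (fun h3 => h2 h3.symm)]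
  diagonal i := by simp
  off_diagonal i j h := by
    show (if i = j then 1 else if j = i + 1 ∨ i = j + 1 then 3 else 2) ≠ 1
    rw [if_neg h]
    split_ifs <;> norm_num

/-- Every irreducible component of `N` is of type `A`, `B`, `D` or `I2`. -/
def Classical {T : Type} (N : CoxeterMatrix T) : Prop :=
  ∃ (ι : Type) (_ : Finite ι) (b : T → ι), (∀ s t, b s ≠ b t → N.M s t = 2) ∧
    ∀ i, (∃ n, HasType N {s | b s = i} (CoxeterMatrix.A n)) ∨
      (∃ n, HasType N {s | b s = i} (CoxeterMatrix.B n)) ∨
      (∃ n, HasType N {s | b s = i} (matD n)) ∨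
      (∃ m, HasType N {s | b s = i} (CoxeterMatrix.I m))

/-- `C` is coloured faithfully in `N`: a homomorphism of Artin groups maps every generator `s` to
a generator (`f s = some s'`) or to `1` (`f s = none`), it preserves the labels in `C`, and for
`s ∈ C` no generator `t ≠ s` with a finite label `M s t` has the same image as `s`. -/
def Coloured {S T : Type} (M : CoxeterMatrix S) (C : Set S) (N : CoxeterMatrix T) : Prop :=
  ∃ (θ : Artin M →* Artin N) (f : S → Option T),
    (∀ s, f s = none → θ (gen M s) = 1) ∧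
    (∀ s s', f s = some s' → θ (gen M s) = gen N s') ∧
    (∀ s ∈ C, f s ≠ none) ∧
    (∀ s ∈ C, ∀ t ∈ C, ∀ s' t', f s = some s' → f t = some t' → N.M s' t' = M.M s t) ∧
    (∀ s ∈ C, ∀ t, t ≠ s → M.M s t ≠ 0 → f t ≠ f s)

/-- Residual finiteness. -/
def IsRF (G : Type) [Group G] : Prop :=
  ∀ g : G, g ≠ 1 → ∃ K : Subgroup G, K.Normal ∧ K.FiniteIndex ∧ g ∉ K

/-- The allowed components `C` of the cliques: types `A`, `B`, `I2`, or coloured faithfully in a
matrix of classical type, in one with finite Coxeter group and residually finite Artin group, or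
in a cycle (affine type `A`). -/
def Good {S : Type} (M : CoxeterMatrix S) (C : Set S) : Prop :=
  (∃ n, HasType M C (CoxeterMatrix.A n)) ∨
  (∃ n, HasType M C (CoxeterMatrix.B n)) ∨
  (∃ m, HasType M C (CoxeterMatrix.I m)) ∨
  (∃ (T : Type) (_ : Finite T) (N : CoxeterMatrix T), Coloured M C N ∧
    (Classical N ∨ (Finite N.Group ∧ IsRF (Artin N)))) ∨
  (∃ n, 3 ≤ n ∧ Coloured M C (cycle n))

theorem isRF_iff {G : Type} [Group G] : IsRF G ↔ Group.ResiduallyFinite G := by
  constructor
  · intro h
    refine Group.residuallyFinite_iff_exists_finiteIndex.mpr (fun g hg => ?_)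
    obtain ⟨K, _, hf, hK⟩ := h g hg
    exact ⟨K, hf, hK⟩
  · intro h g hg
    obtain ⟨H, hH, hgH⟩ := Group.residuallyFinite_iff_exists_finiteIndex.mp h g hg
    exact ⟨H.normalCore, inferInstance, inferInstance, fun hcon => hgH (H.normalCore_le hcon)⟩

theorem matD_eq (n : ℕ) : matD n = Unf.Dm n := rfl

theorem cycle_eq (n : ℕ) : cycle n = Unf.H65.At n := rfl

theorem Coloured.conv {S T : Type} {M : CoxeterMatrix S} {C : Set S} {N : CoxeterMatrix T}
    (h : Coloured M C N) : Unf.Coloured M C N := by
  obtain ⟨θ, f, h0, h1, h2, h3, h4⟩ := h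
  refine ⟨θ, f, ?_, ?_, h3, h4⟩
  · intro s
    rcases hs : f s with _ | s'
    · exact h0 s hs
    · exact h1 s s' hs
  · intro s hs
    exact Option.ne_none_iff_exists'.1 (h2 s hs)

/-- If every clique of `M` is contained in a clique whose components are good, then the Artin group
of `M` is residually finite. -/
theorem result {S : Type} [Finite S] (M : CoxeterMatrix S)
    (h : ∀ C : Set S, IsClique M C → ∃ C' : Set S, C ⊆ C' ∧ IsClique M C' ∧
      ∃ (ι : Type) (b : S → ι), (∀ s ∈ C', ∀ t ∈ C', b s ≠ b t → M.M s t = 2) ∧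
        ∀ i, Good M {s | s ∈ C' ∧ b s = i}) :
    ∀ g : Artin M, g ≠ 1 → ∃ K : Subgroup (Artin M), K.Normal ∧ K.FiniteIndex ∧ g ∉ K := by
  have hc : ∀ C : Set S, Unf.Clique M C → IsClique M C := by
    intro C hC s hs t ht
    by_cases hst : s = t
    · subst hst
      rw [M.diagonal]
      exact one_ne_zero
    · exact hC s hs t ht hst
  refine isRF_iff.2 (Unf.allMain M (fun C hC => ?_))
  obtain ⟨C', h1, h2, ι, b, h3, h4⟩ := h C (hc C hC)
  refine ⟨C', h1, fun s hs t ht _ => h2 s hs t ht, ι, b, h3, fun i => ?_⟩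
  rcases h4 i with h | h | h | ⟨T, hT, N, hco, hN⟩ | ⟨n, hn, hco⟩
  · exact Or.inl h
  · exact Or.inr (Or.inl h)
  · exact Or.inr (Or.inr (Or.inl h))
  · refine Or.inr (Or.inr (Or.inr (Or.inl ⟨T, hT, N, ?_, hco.conv⟩)))
    rcases hN with hN | ⟨hN1, hN2⟩
    · exact Or.inl hN
    · exact Or.inr ⟨hN1, isRF_iff.1 hN2⟩
  · exact Or.inr (Or.inr (Or.inr (Or.inr ⟨n, hn, hco.conv⟩)))

end Pool.Agent.Results.MP_61f49c_al.CliqueTypes
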