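import Pool.Agent.Helper15_RES.Red

set_option autoImplicit false

/-!
# Residual finiteness of all Artin groups reduces to the Artin groups without infinite labels

A label `0` of the Coxeter matrix stands for infinity.  `L` is the set of the finite labels which
are allowed; for `L = {2, 3, 4, ...}` the first statement is the open problem.
-/

namespace Pool.Agent.Results.MP_61f49c_al.InfiniteFree

/-- The Artin group of a Coxeter matrix (`0` stands for infinity). -/
abbrev Artin {S : Type} (M : CoxeterMatrix S) : Type :=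
  PresentedGroup
    {r : FreeGroup S | ∃ i j : S, M.M i j ≠ 0 ∧
      r = ((List.range (M.M i j)).map
              (fun k => if Even k then FreeGroup.of i else FreeGroup.of j)).prod *
          (((List.range (M.M i j)).map
              (fun k => if Even k then FreeGroup.of j else FreeGroup.of i)).prod)⁻¹}

/-- The standard parabolic subgroup generated by the generators in `X`. -/
def Para {S : Type} (M : CoxeterMatrix S) (X : Set S) : Subgroup (Artin M) :=
  Subgroup.closure {g | ∃ s : S, s ∈ X ∧ g = PresentedGroup.of s}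

/-- All labels (outside the diagonal) are in `L`. -/
def LabelsIn {S : Type} (L : Set ℕ) (M : CoxeterMatrix S) : Prop :=
  ∀ s t : S, s ≠ t → M.M s t ∈ L

/-- The set `A` is closed in the profinite topology of `G`. -/
def ProfinitelyClosed {G : Type} [Group G] (A : Set G) : Prop :=
  ∀ z : G, z ∉ A → ∃ N : Subgroup G, N.Normal ∧ N.FiniteIndex ∧ ∀ n ∈ N, z * n ∉ A

/-- Residual finiteness. -/
def IsRF (G : Type) [Group G] : Prop :=
  ∀ g : G, g ≠ 1 → ∃ K : Subgroup G, K.Normal ∧ K.FiniteIndex ∧ g ∉ K

/-- Virtual residual finiteness. -/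
def IsVirtuallyRF (G : Type) [Group G] : Prop :=
  ∃ H : Subgroup G, H.FiniteIndex ∧ IsRF H

theorem isRF_iff {G : Type} [Group G] : IsRF G ↔ Group.ResiduallyFinite G := by
  constructor
  · intro h
    refine Group.residuallyFinite_iff_exists_finiteIndex.mpr (fun g hg => ?_)
    obtain ⟨K, _, hf, hK⟩ := h g hg
    exact ⟨K, hf, hK⟩
  · intro h g hg
    obtain ⟨H, hH, hgH⟩ := Group.residuallyFinite_iff_exists_finiteIndex.mp h g hg
    exact ⟨H.normalCore, inferInstance, inferInstance, fun hcon => hgH (H.normalCore_le hcon)⟩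

theorem IsVirtuallyRF.rf {G : Type} [Group G] (h : IsVirtuallyRF G) : IsRF G := by
  obtain ⟨H, hH, hrf⟩ := h
  rw [isRF_iff]
  refine Group.residuallyFinite_iff_exists_finiteIndex.mpr (fun g hg => ?_)
  by_cases hgH : g ∈ H
  · obtain ⟨K, _, hK, hgK⟩ := hrf ⟨g, hgH⟩ (fun he => hg (congrArg Subtype.val he))
    refine ⟨K.map H.subtype, ?_, ?_⟩
    · have h1 : (K.map H.subtype).index = K.index * H.index := by
        rw [Subgroup.index_map, Subgroup.ker_subtype, sup_bot_eq, Subgroup.range_subtype]
      exact ⟨by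
        rw [h1]
        exact mul_ne_zero hK.index_ne_zero hH.index_ne_zero⟩
    · rintro ⟨k, hk, he⟩
      have he' : k = ⟨g, hgH⟩ := Subtype.ext he
      exact hgK (he' ▸ hk)
  · exact ⟨H, hH, hgH⟩

theorem IsRF.virt {G : Type} [Group G] (h : IsRF G) : IsVirtuallyRF G := by
  refine ⟨⊤, inferInstance, ?_⟩
  intro g hg
  obtain ⟨K, h1, h2, h3⟩ := h g.1 (fun he => hg (Subtype.ext he))
  refine ⟨K.subgroupOf ⊤, inferInstance, inferInstance, fun h4 => h3 h4⟩

theorem virt_iff {G : Type} [Group G] : IsVirtuallyRF G ↔ Group.ResiduallyFinite G :=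
  ⟨fun h => isRF_iff.1 h.rf, fun h => (isRF_iff.2 h).virt⟩

theorem para_eq {S : Type} (M : CoxeterMatrix S) (X : Set S) : Para M X = Unf.P M X := by
  unfold Para Unf.P
  congr 1
  ext g
  constructor
  · rintro ⟨s, hs, rfl⟩
    exact ⟨s, hs, rfl⟩
  · rintro ⟨s, hs, rfl⟩
    exact ⟨s, hs, rfl⟩

theorem closed_mul {S : Type} (M : CoxeterMatrix S) (X Y : Set S)
    (h : Unf.ClosedMul (Unf.P M X) (Unf.P M Y)) :
    ProfinitelyClosed {g : Artin M | ∃ u ∈ Para M X, ∃ v ∈ Para M Y, g = u * v} := by
  intro z hz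
  rw [para_eq, para_eq] at hz
  obtain ⟨N, h1, h2, h3⟩ := h z (fun u hu v hv he => hz ⟨u, hu, v, hv, he⟩)
  refine ⟨N, h1, h2, ?_⟩
  rintro n hn ⟨u, hu, v, hv, he⟩
  rw [para_eq] at hu hv
  exact h3 u hu v hv n⁻¹ (N.inv_mem hn) (eq_mul_inv_of_mul_eq he)

theorem closed_para {S : Type} (M : CoxeterMatrix S) (X : Set S) :
    ProfinitelyClosed (Para M X : Set (Artin M)) ↔
    ∀ z : Art.Gp M, z ∉ Unf.P M X → ∃ N : Subgroup (Art.Gp M), N.Normal ∧ N.FiniteIndex ∧
      ∀ u ∈ Unf.P M X, ∀ n ∈ N, z ≠ u * n := by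
  rw [para_eq]
  constructor
  · intro h z hz
    obtain ⟨N, a1, a2, a3⟩ := h z hz
    refine ⟨N, a1, a2, fun u hu n hn he => a3 n⁻¹ (N.inv_mem hn) ?_⟩
    have h5 : z * n⁻¹ = u := mul_inv_eq_of_eq_mul he
    have h6 : z * n⁻¹ ∈ Unf.P M X := by
      rw [h5]; exact hu
    exact h6
  · intro h z hz
    obtain ⟨N, a1, a2, a3⟩ := h z hz
    exact ⟨N, a1, a2, fun n hn hcon =>
      a3 (z * n) hcon n⁻¹ (N.inv_mem hn) (mul_inv_cancel_right z n).symm⟩

theorem labels_ext {S T : Type} (L : Set ℕ) (h2 : 2 ∈ L) (M : CoxeterMatrix S) (U : T → Set S)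
    (k : ℕ) (hk : k ≠ 1) (hkL : k ∈ L) (hM : LabelsIn L M) :
    LabelsIn L (Unf.H15.extT M U k hk) := by
  classical
  rintro (s | s) (t | t) hst
  · exact hM s t (fun e => hst (by rw [e]))
  · show (if s ∈ U t then 2 else k) ∈ L
    split_ifs
    · exact h2
    · exact hkL
  · show (if t ∈ U s then 2 else k) ∈ L
    split_ifs
    · exact h2
    · exact hkL
  · show (if s = t then 1 else 2) ∈ L
    rw [if_neg (fun e => hst (by rw [e]))]
    exact h2

/-- Let `L` be a set of finite labels containing `2` and some `k ≥ 3`.  The following are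
equivalent: (1) all Artin groups with labels in `L` or infinity are virtually residually finite;
(2) all Artin groups with labels in `L` are; (3) in the Artin groups with labels in `L` the maximal
standard parabolic subgroups are closed in the profinite topology; (4) in the Artin groups with
labels in `L` or infinity all products of two standard parabolic subgroups are closed. -/
theorem result (L : Set ℕ) (h0 : 0 ∉ L) (h2 : 2 ∈ L) (h3 : ∃ k ∈ L, 3 ≤ k) :
    [(∀ (S : Type) [Finite S] (M : CoxeterMatrix S), LabelsIn (insert 0 L) M →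
        IsVirtuallyRF (Artin M)),
      (∀ (S : Type) [Finite S] (M : CoxeterMatrix S), LabelsIn L M → IsVirtuallyRF (Artin M)),
      (∀ (S : Type) [Finite S] (M : CoxeterMatrix S), LabelsIn L M → ∀ x : S,
        ProfinitelyClosed (Para M {s | s ≠ x} : Set (Artin M))),
      (∀ (S : Type) [Finite S] (M : CoxeterMatrix S), LabelsIn (insert 0 L) M →
        ∀ X Y : Set S,
          ProfinitelyClosed {g : Artin M | ∃ u ∈ Para M X, ∃ v ∈ Para M Y, g = u * v})].TFAE := by
  classical
  obtain ⟨k, hkL, hk3⟩ := h3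
  have hk1 : k ≠ 1 := by omega
  have hk2 : k ≠ 2 := by omega
  tfae_have 1 → 2 := by
    intro h S _ M hM
    exact h S M (fun s t hst => Or.inr (hM s t hst))
  tfae_have 2 → 3 := by
    intro h S _ M hM x
    have hRF := virt_iff.1 (h _ (Unf.H15.extT M (fun _ : Unit => {s | s ≠ x}) k hk1)
      (labels_ext L h2 M _ k hk1 hkL hM))
    rw [closed_para]
    intro z hz
    exact Unf.H15.closed_single M (fun _ : Unit => {s | s ≠ x}) k hk1 hk2 () hRF z hz
  tfae_have 3 → 1 := by
    intro h S _ M hM
    rw [virt_iff]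
    obtain ⟨M', hM'⟩ : ∃ M' : CoxeterMatrix S, M' = Unf.H93.two M := ⟨_, rfl⟩
    have hL' : LabelsIn L M' := by
      intro s t hst
      rw [hM', Unf.H93.two_apply]
      split_ifs with h1
      · exact h2
      · rcases hM s t hst with h4 | h4
        · exact absurd h4 h1
        · exact h4
    refine Unf.H15.rf_of_closed M M' (fun s t hst => ?_) (fun x y => ?_)
    · rw [hM']; exact Unf.H93.two_eq M s t hst
    · refine Unf.H15.closed_of_para M' (fun _ : Unit => {z | z ≠ y}) k hk1 hk2 () {z | z ≠ x} ?_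
      intro g hg
      have hset : (Sum.inl '' {z : S | z ≠ x} ∪ {Sum.inr ()} : Set (S ⊕ Unit)) =
          {a | a ≠ Sum.inl x} := by
        ext a
        rcases a with a | a
        · constructor
          · rintro (⟨b, hb, he⟩ | hcon)
            · intro h5
              have h6 : b = a := Sum.inl_injective he
              have h7 : a = x := Sum.inl_injective h5
              exact hb (h6.trans h7)
            · cases hcon
          · intro h5
            exact Or.inl ⟨a, fun h6 => h5 (by rw [h6]), rfl⟩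
        · constructor
          · intro _ hcon
            cases hcon
          · intro _
            exact Or.inr rfl
      rw [hset] at hg ⊢
      have hcl := h _ (Unf.H15.extT M' (fun _ : Unit => {z | z ≠ y}) k hk1)
        (labels_ext L h2 M' _ k hk1 hkL hL') (Sum.inl x)
      rw [closed_para] at hcl
      exact hcl g hg
  tfae_have 1 → 4 := by
    intro h S _ M hM X Y
    have hM2 : LabelsIn (insert 0 L) (Unf.H15.extT M (fun b : Bool => if b then X else Y) k hk1) :=
      labels_ext (insert 0 L) (Or.inr h2) M _ k hk1 (Or.inr hkL) hM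
    have hRF := virt_iff.1 (h _ _ hM2)
    have hcl := Unf.H15.closed_pair M (fun b : Bool => if b then X else Y) k hk1 hk2 true false
      (by decide) hRF
    exact closed_mul M X Y hcl
  tfae_have 4 → 3 := by
    intro h S _ M hM x z hz
    have h4 := h S M (fun s t hst => Or.inr (hM s t hst)) {s | s ≠ x} {s | s ≠ x}
    obtain ⟨N, a1, a2, a3⟩ := h4 z (by
      rintro ⟨u, hu, v, hv, he⟩
      exact hz (he ▸ Subgroup.mul_mem _ hu hv))
    exact ⟨N, a1, a2, fun n hn hcon =>
      a3 n hn ⟨z * n, hcon, 1, Subgroup.one_mem _, (mul_one (z * n)).symm⟩⟩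
  tfae_finish

end Pool.Agent.Results.MP_61f49c_al.InfiniteFree
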