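import Pool.Agent.Helper44_Art.Fin3

set_option autoImplicit false

/-!
# Residual finiteness of Artin groups with locally dihedral links

A label `0` of the Coxeter matrix stands for infinity.
-/

namespace Pool.Agent.Results.MP_61f49c_al.LinkTheorem

variable {n : ℕ}

/-- The Artin group of a Coxeter matrix (`0` stands for infinity). -/
abbrev Artin (M : CoxeterMatrix (Fin n)) : Type :=
  PresentedGroup
    {r : FreeGroup (Fin n) | ∃ i j : Fin n, M.M i j ≠ 0 ∧
      r = ((List.range (M.M i j)).map
              (fun k => if Even k then FreeGroup.of i else FreeGroup.of j)).prod *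
          (((List.range (M.M i j)).map
              (fun k => if Even k then FreeGroup.of j else FreeGroup.of i)).prod)⁻¹}

/-- `s` and `x` are joined: they are distinct and have a finite label. -/
def Joined (M : CoxeterMatrix (Fin n)) (s x : Fin n) : Prop := s ≠ x ∧ M.M s x ≠ 0

/-- The label `m` is good: for some prime `q` dividing `m`, every finite label `m'` is a multiple
of `m` or satisfies `q ∣ m / gcd m' m`.  (Every prime power is good.) -/
def Good (M : CoxeterMatrix (Fin n)) (m : ℕ) : Prop :=
  ∃ q : ℕ, q.Prime ∧ q ∣ m ∧ ∀ s t : Fin n, Joined M s t →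
    m ∣ M.M s t ∨ q ∣ m / Nat.gcd (M.M s t) m

/-- The conditions of the theorem. -/
structure Admissible (M : CoxeterMatrix (Fin n)) : Prop where
  /-- If `s` has an infinite label, then in every triangle `x`, `y`, `z` of generators joined to
  `s` at most one of the three labels is different from `2`. -/
  link : ∀ s t x y z : Fin n, M.M s t = 0 → Joined M s x → Joined M s y → Joined M s z →
    Joined M x y → Joined M x z → Joined M y z → M.M x y = 2 ∨ (M.M x z = 2 ∧ M.M y z = 2)
  /-- If `s` has an infinite label, then the label of every edge `x`, `y` of generators joined to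
  `s` is good. -/
  label : ∀ s t x y : Fin n, M.M s t = 0 → Joined M s x → Joined M s y → Joined M x y →
    Good M (M.M x y)
  /-- Every set `T` of at least three pairwise joined generators, whose Coxeter graph is
  connected, is a triangle of type `A₃`, `B₃`, affine `A₂` or affine `C₂`. -/
  clique : ∀ T : Finset (Fin n), 3 ≤ T.card → (∀ x ∈ T, ∀ y ∈ T, M.M x y ≠ 0) →
    (∀ P ⊆ T, P.Nonempty → P ≠ T → ∃ x ∈ P, ∃ y ∈ T, y ∉ P ∧ M.M x y ≠ 2) →
    ∃ a b c : Fin n, T = {a, b, c} ∧
      ((M.M a b = 3 ∧ M.M b c = 3 ∧ M.M a c = 2) ∨ (M.M a b = 3 ∧ M.M b c = 4 ∧ M.M a c = 2) ∨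
        (M.M a b = 3 ∧ M.M b c = 3 ∧ M.M a c = 3) ∨ (M.M a b = 4 ∧ M.M b c = 4 ∧ M.M a c = 2))

theorem exists_of_rf {G : Type} [Group G] (h : Art.RF G) :
    ∀ g : G, g ≠ 1 → ∃ K : Subgroup G, K.Normal ∧ K.FiniteIndex ∧ g ∉ K := by
  intro g hg
  obtain ⟨H, hH, hgH⟩ := Group.residuallyFinite_iff_exists_finiteIndex.mp h g hg
  exact ⟨H.normalCore, inferInstance, inferInstance, fun hcon => hgH (H.normalCore_le hcon)⟩

/-- Every admissible Artin group is residually finite. -/
theorem result (n : ℕ) (M : CoxeterMatrix (Fin n)) (h : Admissible M) :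
    ∀ g : Artin M, g ≠ 1 → ∃ K : Subgroup (Artin M), K.Normal ∧ K.FiniteIndex ∧ g ∉ K := by
  classical
  have h1 : Art.LD M := by
    intro s t hst x hx y hy z hz hxy hxz hyz g1 g2 g3
    exact h.link s t x y z hst ⟨hx.1.symm, hx.2⟩ ⟨hy.1.symm, hy.2⟩ ⟨hz.1.symm, hz.2⟩
      ⟨hxy, g1⟩ ⟨hxz, g2⟩ ⟨hyz, g3⟩
  have h2 : Art.LG M := by
    intro s t hst x hx y hy hxy g
    obtain ⟨q, hq, hqm, hqq⟩ := h.label s t x y hst ⟨hx.1.symm, hx.2⟩ ⟨hy.1.symm, hy.2⟩ ⟨hxy, g⟩
    exact ⟨q, hq, hqm, fun s' t' hst' hM => hqq s' t' ⟨hst', hM⟩⟩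
  have h3 : Art.CliqueH M := by
    intro T _ N j hj hN hf hirr hcard htri
    exfalso
    apply htri
    have hT : 3 ≤ (Finset.univ.image j).card := by
      rw [Finset.card_image_of_injective _ hj]
      exact hcard
    obtain ⟨a, b, c, habc, hlab⟩ := h.clique (Finset.univ.image j) hT (by
      intro x hx y hy
      obtain ⟨u, -, rfl⟩ := Finset.mem_image.1 hx
      obtain ⟨v, -, rfl⟩ := Finset.mem_image.1 hy
      rw [← hN]
      exact hf u v) (by
      intro P hP hne hPT
      have hne' : (j ⁻¹' (P : Set (Fin n)))ᶜ.Nonempty := by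
        by_contra hcon
        rw [Set.not_nonempty_iff_eq_empty, Set.compl_empty_iff] at hcon
        apply hPT
        apply Finset.Subset.antisymm hP
        intro x hx
        obtain ⟨u, -, rfl⟩ := Finset.mem_image.1 hx
        have : u ∈ j ⁻¹' (P : Set (Fin n)) := by rw [hcon]; exact Set.mem_univ u
        exact this
      have hne'' : (j ⁻¹' (P : Set (Fin n))).Nonempty := by
        obtain ⟨x, hx⟩ := hne
        obtain ⟨u, -, rfl⟩ := Finset.mem_image.1 (hP hx)
        exact ⟨u, hx⟩
      obtain ⟨x, hx, y, hy, hxy⟩ := hirr _ hne'' hne'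
      exact ⟨j x, hx, j y, Finset.mem_image_of_mem j (Finset.mem_univ y), hy, by
        rw [← hN]; exact hxy⟩)
    have hmem : ∀ x ∈ ({a, b, c} : Finset (Fin n)), ∃ u, j u = x := by
      intro x hx
      rw [← habc] at hx
      obtain ⟨u, -, hu⟩ := Finset.mem_image.1 hx
      exact ⟨u, hu⟩
    obtain ⟨a', rfl⟩ := hmem a (by simp)
    obtain ⟨b', rfl⟩ := hmem b (by simp)
    obtain ⟨c', rfl⟩ := hmem c (by simp)
    have hc3 : 3 ≤ ({j a', j b', j c'} : Finset (Fin n)).card := by rw [← habc]; exact hT
    have hab : a' ≠ b' := by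
      rintro rfl
      have := Finset.card_le_two (a := j a') (b := j c')
      simp only [Finset.mem_insert, Finset.mem_singleton, true_or, Finset.insert_eq_of_mem] at hc3
      omega
    have hac : a' ≠ c' := by
      rintro rfl
      have h5 : ({j a', j b', j a'} : Finset (Fin n)) = {j a', j b'} := by
        ext x
        simp only [Finset.mem_insert, Finset.mem_singleton]
        tauto
      have := Finset.card_le_two (a := j a') (b := j b')
      rw [h5] at hc3
      omega
    have hbc : b' ≠ c' := by
      rintro rfl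
      have h5 : ({j a', j b', j b'} : Finset (Fin n)) = {j a', j b'} := by
        ext x
        simp only [Finset.mem_insert, Finset.mem_singleton]
        tauto
      have := Finset.card_le_two (a := j a') (b := j b')
      rw [h5] at hc3
      omega
    refine ⟨a', b', c', hab, hac, hbc, ?_, ?_⟩
    · intro x
      have hx : j x ∈ ({j a', j b', j c'} : Finset (Fin n)) := by
        rw [← habc]
        exact Finset.mem_image_of_mem j (Finset.mem_univ x)
      simp only [Finset.mem_insert, Finset.mem_singleton] at hx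
      rcases hx with hx | hx | hx
      · exact Or.inl (hj hx)
      · exact Or.inr (Or.inl (hj hx))
      · exact Or.inr (Or.inr (hj hx))
    · simp only [hN]
      exact hlab
  exact exists_of_rf (Art.H44.finalP M h1 h2 h3)

end Pool.Agent.Results.MP_61f49c_al.LinkTheorem
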